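import Mathlib
import Pool.Agent.helper82.SB.Shared

set_option autoImplicit false

/-!
# SB-L: gluing two knots along an edge
-/

namespace Pool.Agent.helper82.SB
namespace Glue74

open Matrix Filter Topology

/-- Two adjacent edges meet only in the common vertex. -/
theorem corner_inter {p q r z : E3} (h : ¬ SameRay ℝ (p - q) (r - q)) (h1 : z ∈ segment ℝ p q)
    (h2 : z ∈ segment ℝ q r) : z = q := by
  rw [segment_symm, segment_eq_image'] at h1
  rw [segment_eq_image'] at h2
  obtain ⟨a, ⟨ha0, ha1⟩, ha⟩ := h1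
  obtain ⟨b, ⟨hb0, hb1⟩, hb⟩ := h2
  by_contra hz
  apply h
  have e1 : z - q = a • (p - q) := by rw [← ha]; simp
  have e2 : z - q = b • (r - q) := by rw [← hb]; simp
  have hz' : z - q ≠ 0 := sub_ne_zero.2 hz
  have s1 : SameRay ℝ (p - q) (z - q) := by
    rw [e1]; exact SameRay.sameRay_nonneg_smul_right _ ha0
  have s2 : SameRay ℝ (z - q) (r - q) := by
    rw [e2]; exact SameRay.sameRay_nonneg_smul_left _ hb0
  exact s1.trans s2 (fun h => absurd h hz')

/-- A straight corner is not a cusp. -/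
theorem not_sameRay_neg {e : E3} (he : e ≠ 0) {c : ℝ} (hc : 0 < c) : ¬ SameRay ℝ (-e) (c • e) := by
  intro h
  have h1 : SameRay ℝ (-e) e := by
    have := h.pos_smul_right (inv_pos.2 hc)
    rwa [smul_smul, inv_mul_cancel₀ hc.ne', one_smul] at this
  have h2 := sameRay_neg_swap.1 h1
  -- `SameRay (-e) e` forces `e = 0`
  have h3 : SameRay ℝ e (-e) := h1.symm
  exact he (eq_zero_of_sameRay_self_neg h3)

theorem not_sameRay_neg' {e : E3} (he : e ≠ 0) {c : ℝ} (hc : 0 < c) : ¬ SameRay ℝ (-(c • e)) e := by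
  intro h
  have := not_sameRay_neg (e := c • e) (smul_ne_zero hc.ne' he) (inv_pos.2 hc)
  apply this
  rwa [smul_smul, inv_mul_cancel₀ hc.ne', one_smul]

variable (K L : PolyKnot)

/-- the glued vertex sequence -/
def gP (i : ℤ) : E3 :=
  if i % ((K.n : ℤ) + L.n - 2) < K.n then K.P (i % ((K.n : ℤ) + L.n - 2))
  else L.P (i % ((K.n : ℤ) + L.n - 2) - (K.n - 1))

variable {K L}

theorem gP_per (i : ℤ) : gP K L (i + ((K.n : ℤ) + L.n - 2)) = gP K L i := by
  unfold gP
  rw [Int.add_emod_right]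

theorem gP_mod (i : ℤ) : gP K L (i % ((K.n : ℤ) + L.n - 2)) = gP K L i := by
  unfold gP
  rw [Int.emod_emod_of_dvd _ (dvd_refl _)]

theorem gP_K {i : ℤ} (hi : 0 ≤ i) (hi' : i < K.n) : gP K L i = K.P i := by
  have := K.three
  have := L.three
  unfold gP
  rw [Int.emod_eq_of_lt hi (by omega), if_pos hi']

theorem gP_L (h0 : L.P 0 = K.P (-1)) (h1 : L.P (-1) = K.P 0) {j : ℤ} (hj : 0 ≤ j) (hj' : j < L.n) :
    gP K L (K.n - 1 + j) = L.P j := by
  have hK := K.three
  have hL := L.three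
  rcases eq_or_lt_of_le hj with h | h
  · subst h
    rw [add_zero, gP_K (by omega) (by omega), h0, ← K.per (-1)]
    congr 1 <;> ring
  · rcases eq_or_lt_of_le (show j ≤ L.n - 1 by omega) with h2 | h2
    · subst h2
      rw [show (K.n : ℤ) - 1 + ((L.n : ℤ) - 1) = 0 + ((K.n : ℤ) + L.n - 2) by ring, gP_per,
        gP_K le_rfl (by omega), ← h1, ← L.per (-1)]
      congr 1 <;> ring
    · unfold gP
      rw [Int.emod_eq_of_lt (by omega) (by omega), if_neg (by omega)]
      congr 1 <;> ring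

theorem mem_trace (K : PolyKnot) {z : E3} (i : ℤ) (h : z ∈ segment ℝ (K.P i) (K.P (i + 1))) :
    z ∈ K.trace := Set.mem_iUnion.2 ⟨i, h⟩

/-- a common point of a `K`-edge and an `L`-edge -/
theorem KL (hK : 4 ≤ K.n) (hL : 4 ≤ L.n) (h0 : L.P 0 = K.P (-1))
    (h1 : L.P (-1) = K.P 0) (C : Set E3) (hKC : K.trace ∩ C = segment ℝ (K.P (-1)) (K.P 0))
    (hLC : L.trace ⊆ C) {a j : ℤ} (ha0 : 0 ≤ a) (ha1 : a ≤ K.n - 2) (hj0 : 0 ≤ j) (hj1 : j ≤ L.n - 2)
    (hd : 2 ≤ K.n - 1 + j - a) (hd' : K.n - 1 + j - a ≤ K.n + L.n - 4) :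
    Disjoint (segment ℝ (K.P a) (K.P (a + 1))) (segment ℝ (L.P j) (L.P (j + 1))) := by
  rw [Set.disjoint_left]
  intro z hz1 hz2
  have hzs : z ∈ segment ℝ (K.P (-1)) (K.P 0) := by
    rw [← hKC]
    exact ⟨mem_trace K a hz1, hLC (mem_trace L j hz2)⟩
  have hne : K.P (-1) ≠ K.P 0 := by
    intro h
    apply edge_ne_zero K (-1)
    unfold edge
    rw [show (-1 : ℤ) + 1 = 0 by norm_num, h, sub_self]
  -- position on `K`
  have zK : z = K.P 0 ∧ a = 0 ∨ z = K.P (-1) ∧ a = K.n - 2 := by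
    rcases eq_or_lt_of_le ha0 with h | h
    · left
      subst h
      refine ⟨?_, rfl⟩
      have hc := K.corner 0
      rw [show (0 : ℤ) - 1 = -1 by norm_num] at hc
      exact corner_inter hc hzs hz1
    · rcases eq_or_lt_of_le ha1 with h2 | h2
      · right
        refine ⟨?_, h2⟩
        have hc := K.corner (-1)
        have e1 : K.P a = K.P (-1 - 1) := by
          rw [h2, ← K.per (-1 - 1)]; congr 1 <;> ring
        have e2 : K.P (a + 1) = K.P (-1) := by
          rw [h2, ← K.per (-1)]; congr 1 <;> ring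
        rw [show (-1 : ℤ) + 1 = 0 by norm_num] at hc
        rw [e1, e2] at hz1
        exact corner_inter hc hz1 hzs
      · exfalso
        have := K.disj (-1) a (by omega) (by omega)
        rw [Set.disjoint_left] at this
        exact this (by rw [show (-1 : ℤ) + 1 = 0 by norm_num]; exact hzs) hz1
  have hzs' : z ∈ segment ℝ (L.P (-1)) (L.P 0) := by
    rw [h0, h1, segment_symm]; exact hzs
  have zL : z = L.P 0 ∧ j = L.n - 2 + 0 - (L.n - 2) ∨ z = L.P (-1) ∧ j = L.n - 2 := by
    rcases eq_or_lt_of_le hj0 with h | h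
    · left
      subst h
      refine ⟨?_, by ring⟩
      have hc := L.corner 0
      rw [show (0 : ℤ) - 1 = -1 by norm_num] at hc
      have : z ∈ segment ℝ (L.P 0) (L.P (0 + 1)) := hz2
      exact corner_inter hc hzs' this
    · rcases eq_or_lt_of_le hj1 with h2 | h2
      · right
        refine ⟨?_, h2⟩
        have hc := L.corner (-1)
        have e1 : L.P j = L.P (-1 - 1) := by
          rw [h2, ← L.per (-1 - 1)]; congr 1 <;> ring
        have e2 : L.P (j + 1) = L.P (-1) := by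
          rw [h2, ← L.per (-1)]; congr 1 <;> ring
        rw [show (-1 : ℤ) + 1 = 0 by norm_num] at hc
        rw [e1, e2] at hz2
        exact corner_inter hc hz2 hzs'
      · exfalso
        have := L.disj (-1) j (by omega) (by omega)
        rw [Set.disjoint_left] at this
        exact this (by rw [show (-1 : ℤ) + 1 = 0 by norm_num]; exact hzs') hz2
  rcases zK with ⟨k1, k2⟩ | ⟨k1, k2⟩ <;> rcases zL with ⟨l1, l2⟩ | ⟨l1, l2⟩
  · exact hne (by rw [← h0, ← l1, k1])
  · omega
  · omega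
  · exact hne (by rw [← k1, l1, h1])

/-- the glued knot -/
noncomputable def glued (hK : 4 ≤ K.n) (hL : 4 ≤ L.n) (h0 : L.P 0 = K.P (-1))
    (h1 : L.P (-1) = K.P 0) (C : Set E3) (hKC : K.trace ∩ C = segment ℝ (K.P (-1)) (K.P 0))
    (hLC : L.trace ⊆ C) (s t : ℝ) (hs : 0 < s) (ht : 0 < t)
    (hsL : edge L.P (-2) = s • edge K.P 0) (htL : edge L.P 0 = t • edge K.P (-2)) : PolyKnot where
  n := K.n + L.n - 2
  P := gP K L
  three := by omega
  per i := by
    have : ((K.n + L.n - 2 : ℕ) : ℤ) = (K.n : ℤ) + L.n - 2 := by omega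
    rw [this]; exact gP_per i
  corner i := by
    -- reduce to `0 ≤ i < N`
    have key : ∀ i : ℤ, 0 ≤ i → i < (K.n : ℤ) + L.n - 2 →
        ¬ SameRay ℝ (gP K L (i - 1) - gP K L i) (gP K L (i + 1) - gP K L i) := by
      intro i hi0 hi1
      rcases eq_or_lt_of_le hi0 with h | h
      · -- at `K.P 0`
        subst h
        have e1 : gP K L (0 - 1) = L.P (-2) := by
          rw [← gP_per, show (0 : ℤ) - 1 + ((K.n : ℤ) + L.n - 2) = K.n - 1 + (L.n - 2) by ring,
            gP_L h0 h1 (by omega) (by omega), ← L.per (-2)]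
          congr 1 <;> ring
        rw [e1, gP_K le_rfl (by omega), gP_K (by norm_num) (by omega)]
        have e2 : L.P (-2) - K.P 0 = -(s • edge K.P 0) := by
          rw [← hsL, ← h1]; unfold edge
          rw [show (-2 : ℤ) + 1 = -1 by norm_num]; abel
        have e3 : K.P (0 + 1) - K.P 0 = edge K.P 0 := rfl
        rw [e2, e3]
        exact not_sameRay_neg' (edge_ne_zero K 0) hs
      · rcases lt_or_ge i (K.n - 1) with h2 | h2
        · rw [gP_K (by omega) (by omega), gP_K (by omega) (by omega), gP_K (by omega) (by omega)]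
          exact K.corner i
        · rcases eq_or_lt_of_le h2 with h3 | h3
          · -- at `K.P (-1)`
            have e1 : gP K L (i + 1) = L.P 1 := by
              rw [← h3, gP_L h0 h1 (by norm_num) (by omega)]
            have e2 : gP K L i = K.P (-1) := by
              rw [← h3, gP_K (by omega) (by omega), ← K.per (-1)]; congr 1 <;> ring
            have e3 : gP K L (i - 1) = K.P (-2) := by
              rw [← h3, gP_K (by omega) (by omega), ← K.per (-2)]; congr 1 <;> ring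
            rw [e1, e2, e3]
            have e4 : K.P (-2) - K.P (-1) = - edge K.P (-2) := by
              unfold edge; rw [show (-2 : ℤ) + 1 = -1 by norm_num]; abel
            have e5 : L.P 1 - K.P (-1) = t • edge K.P (-2) := by
              rw [← htL, ← h0]; unfold edge; rw [zero_add]
            rw [e4, e5]
            exact not_sameRay_neg (edge_ne_zero K (-2)) ht
          · obtain ⟨j, rfl⟩ : ∃ j, i = K.n - 1 + j := ⟨i - (K.n - 1), by ring⟩
            rw [show (K.n : ℤ) - 1 + j - 1 = K.n - 1 + (j - 1) by ring,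
              show (K.n : ℤ) - 1 + j + 1 = K.n - 1 + (j + 1) by ring,
              gP_L h0 h1 (by omega) (by omega), gP_L h0 h1 (by omega) (by omega),
              gP_L h0 h1 (by omega) (by omega)]
            exact L.corner j
    have hN : 0 < (K.n : ℤ) + L.n - 2 := by omega
    have h := key (i % ((K.n : ℤ) + L.n - 2)) (Int.emod_nonneg _ hN.ne') (Int.emod_lt_of_pos _ hN)
    have e : ∀ d : ℤ, gP K L (i % ((K.n : ℤ) + L.n - 2) + d) = gP K L (i + d) := by
      intro d
      rw [← gP_mod (i + d), ← gP_mod (i % ((K.n : ℤ) + L.n - 2) + d), Int.emod_add_emod]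
    have e1 := e 1
    have e2 := e (-1)
    rw [gP_mod, sub_eq_add_neg _ (1 : ℤ), e1, e2] at h
    exact h
  disj := by
    have hN : 0 < (K.n : ℤ) + L.n - 2 := by omega
    have key : ∀ a b : ℤ, 0 ≤ a → a + 2 ≤ b → b < (K.n : ℤ) + L.n - 2 → b ≤ a + ((K.n : ℤ) + L.n - 2) - 2 →
        Disjoint (segment ℝ (gP K L a) (gP K L (a + 1))) (segment ℝ (gP K L b) (gP K L (b + 1))) := by
      intro a b ha hab hb hba
      have hseg : ∀ c : ℤ, 0 ≤ c → c ≤ K.n - 2 →
          segment ℝ (gP K L c) (gP K L (c + 1)) = segment ℝ (K.P c) (K.P (c + 1)) := by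
        intro c h h'
        rw [gP_K h (by omega), gP_K (by omega) (by omega)]
      have hseg' : ∀ j : ℤ, 0 ≤ j → j ≤ L.n - 2 →
          segment ℝ (gP K L (K.n - 1 + j)) (gP K L (K.n - 1 + j + 1))
            = segment ℝ (L.P j) (L.P (j + 1)) := by
        intro j h h'
        rw [show (K.n : ℤ) - 1 + j + 1 = K.n - 1 + (j + 1) by ring, gP_L h0 h1 h (by omega),
          gP_L h0 h1 (by omega) (by omega)]
      rcases le_or_gt b (K.n - 2) with h | h
      · rw [hseg a ha (by omega), hseg b (by omega) h]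
        exact K.disj a b hab (by omega)
      · obtain ⟨j, rfl⟩ : ∃ j, b = K.n - 1 + j := ⟨b - (K.n - 1), by ring⟩
        rw [hseg' j (by omega) (by omega)]
        rcases le_or_gt a (K.n - 2) with h2 | h2
        · rw [hseg a ha h2]
          exact KL hK hL h0 h1 C hKC hLC ha h2 (by omega) (by omega) (by omega) (by omega)
        · obtain ⟨l, rfl⟩ : ∃ l, a = K.n - 1 + l := ⟨a - (K.n - 1), by ring⟩
          rw [hseg' l (by omega) (by omega)]
          exact L.disj l j (by omega) (by omega)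
    intro i j hij hji
    have hcast : ((K.n + L.n - 2 : ℕ) : ℤ) = (K.n : ℤ) + L.n - 2 := by omega
    rw [hcast] at hji
    set N : ℤ := (K.n : ℤ) + L.n - 2 with hNdef
    have hper : ∀ (i : ℤ) (m : ℤ), gP K L (i + m * N) = gP K L i := by
      intro i m
      rw [← gP_mod (i + m * N), ← hNdef, Int.add_mul_emod_self_right, hNdef, gP_mod]
    -- shift by a multiple of `N`
    have hi := Int.emod_add_mul_ediv i N
    set q := i / N
    set a := i % N with ha
    have ha0 : 0 ≤ a := Int.emod_nonneg _ hN.ne'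
    have ha1 : a < N := Int.emod_lt_of_pos _ hN
    have ei : i = a + q * N := by rw [← hi]; ring
    obtain ⟨b, hb⟩ : ∃ b, j = b + q * N := ⟨j - q * N, by ring⟩
    rw [ei, hb, show a + q * N + 1 = a + 1 + q * N by ring, show b + q * N + 1 = b + 1 + q * N by ring,
      hper, hper, hper, hper]
    have hab : a + 2 ≤ b := by linarith
    have hba : b + 2 ≤ a + N := by linarith
    rcases lt_or_ge b N with h | h
    · exact key a b ha0 hab h (by omega)
    · have := key (b - N) a (by omega) (by omega) (by omega) (by omega)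
      have e1 := hper (b - N) 1
      have e2 := hper (b - N + 1) 1
      rw [show b - N + 1 * N = b by ring] at e1
      rw [show b - N + 1 + 1 * N = b + 1 by ring] at e2
      rw [← e1, ← e2] at this
      exact this.symm

theorem D_self (x : ℝ) {c : ℝ} (hc : 0 < c) : D x (c * x) = 0 := by
  unfold D
  rw [if_neg]
  rintro ⟨h1, h2⟩
  have : 0 < c * x := mul_pos hc h1
  linarith

theorem D_self' (x : ℝ) {c : ℝ} (hc : 0 < c) : D (c * x) x = 0 := by
  unfold D
  rw [if_neg]
  rintro ⟨h1, h2⟩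
  have : c * x < 0 := mul_neg_of_pos_of_neg hc h2
  linarith

theorem four (σ τ u s t : ℝ) (hs : 0 < s) (ht : 0 < t) (hσ : σ ≠ 0) (hτ : τ ≠ 0) (hu : u ≠ 0) :
    D τ u + D σ τ + D (-τ) (t * σ) + D (s * u) (-τ) = 1 := by
  unfold D
  rcases lt_or_gt_of_ne hτ with h | h <;> rcases lt_or_gt_of_ne hσ with h2 | h2 <;>
    rcases lt_or_gt_of_ne hu with h3 | h3
  all_goals
    have := h.le; have := h2.le; have := h3.le
    simp [h, h2, h3, not_lt.2, mul_pos_iff_of_pos_left, mul_neg_iff, hs, ht, hs.le, ht.le, *]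

end Glue74

open Glue74 Matrix in
/-- SB-L. Gluing two knots along an edge, with straight continuations. -/
theorem exists_glue (K L : PolyKnot) (hK : 4 ≤ K.n) (hL : 4 ≤ L.n) (h0 : L.P 0 = K.P (-1))
    (h1 : L.P (-1) = K.P 0) (C : Set E3) (hKC : K.trace ∩ C = segment ℝ (K.P (-1)) (K.P 0))
    (hLC : L.trace ⊆ C) (s t : ℝ) (hs : 0 < s) (ht : 0 < t)
    (hsL : edge L.P (-2) = s • edge K.P 0) (htL : edge L.P 0 = t • edge K.P (-2)) :
    ∃ Q : PolyKnot, Q.n + 2 = K.n + L.n ∧ (∀ i : ℤ, 0 ≤ i → i < K.n → Q.P i = K.P i) ∧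
      (∀ j : ℤ, 0 ≤ j → j < L.n → Q.P (K.n - 1 + j) = L.P j) ∧
      ∀ M₁ M₂, (∀ v, maxima K.n K.P v ≤ M₁) → (∀ v, maxima L.n L.P v ≤ M₂) →
        ∀ v, maxima Q.n Q.P v + 1 ≤ M₁ + M₂ := by
  refine ⟨glued hK hL h0 h1 C hKC hLC s t hs ht hsL htL, ?_, fun i h h' => gP_K h h',
    fun j h h' => gP_L h0 h1 h h', ?_⟩
  · show K.n + L.n - 2 + 2 = K.n + L.n
    omega
  intro M₁ M₂ hM₁ hM₂
  show ∀ v, maxima (K.n + L.n - 2) (gP K L) v + 1 ≤ M₁ + M₂
  obtain ⟨a, ha⟩ : ∃ a, K.n = a + 2 := ⟨K.n - 2, by omega⟩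
  obtain ⟨b, hb⟩ : ∃ b, L.n = b + 2 := ⟨L.n - 2, by omega⟩
  -- generic directions
  let S : Set E3 := {edge K.P (-2), edge K.P (-1), edge K.P 0}
  have hS : S.Finite := by simp [S]
  -- edges of the glued polygon
  have eK : ∀ i : ℤ, 0 ≤ i → i ≤ K.n - 2 → edge (gP K L) i = edge K.P i := by
    intro i h h'
    unfold edge
    rw [gP_K h (by omega), gP_K (by omega) (by omega)]
  have eL : ∀ j : ℤ, 0 ≤ j → j ≤ L.n - 2 → edge (gP K L) (K.n - 1 + j) = edge L.P j := by
    intro j h h'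
    unfold edge
    rw [show (K.n : ℤ) - 1 + j + 1 = K.n - 1 + (j + 1) by ring, gP_L h0 h1 h (by omega),
      gP_L h0 h1 (by omega) (by omega)]
  have gen : ∀ v, (∀ w ∈ S, w ≠ 0 → v ⬝ᵥ w ≠ 0) →
      maxima (K.n + L.n - 2) (gP K L) v + 1 = maxima K.n K.P v + maxima L.n L.P v := by
    intro v hv
    have n1 : v ⬝ᵥ edge K.P (-2) ≠ 0 := hv _ (by simp [S]) (edge_ne_zero K _)
    have n2 : v ⬝ᵥ edge K.P (-1) ≠ 0 := hv _ (by simp [S]) (edge_ne_zero K _)
    have n3 : v ⬝ᵥ edge K.P 0 ≠ 0 := hv _ (by simp [S]) (edge_ne_zero K _)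
    have f4 := four _ _ _ s t hs ht n1 n2 n3
    have eLm : edge L.P (-1) = - edge K.P (-1) := by
      unfold edge
      rw [show (-1 : ℤ) + 1 = 0 by norm_num, h0, h1]; abel
    rw [maxima_eq_sum, maxima_eq_sum, maxima_eq_sum]
    -- split the sums
    have sK : ∑ i ∈ Finset.range K.n, D (v ⬝ᵥ edge K.P ((i : ℤ) - 1)) (v ⬝ᵥ edge K.P i)
        = D (v ⬝ᵥ edge K.P (-1)) (v ⬝ᵥ edge K.P 0)
          + ∑ i ∈ Finset.range a, D (v ⬝ᵥ edge K.P (i : ℤ)) (v ⬝ᵥ edge K.P ((i : ℤ) + 1))
          + D (v ⬝ᵥ edge K.P (-2)) (v ⬝ᵥ edge K.P (-1)) := by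
      rw [ha, Finset.sum_range_succ, Finset.sum_range_succ']
      have e1 : edge K.P (((a + 1 : ℕ) : ℤ) - 1) = edge K.P (-2) := by
        rw [← edge_per K.per (-2), ha]; congr 1 <;> (push_cast; ring)
      have e2 : edge K.P (((a + 1 : ℕ) : ℤ)) = edge K.P (-1) := by
        rw [← edge_per K.per (-1), ha]; congr 1 <;> (push_cast; ring)
      rw [e1, e2]
      have e3 : ∀ i : ℕ, (((i + 1 : ℕ) : ℤ) - 1) = i := by intro i; push_cast; ring
      simp only [e3]
      push_cast
      try rw [zero_sub]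
      ring
    have sL : ∑ i ∈ Finset.range L.n, D (v ⬝ᵥ edge L.P ((i : ℤ) - 1)) (v ⬝ᵥ edge L.P i)
        = D (v ⬝ᵥ edge L.P (-1)) (v ⬝ᵥ edge L.P 0)
          + ∑ i ∈ Finset.range b, D (v ⬝ᵥ edge L.P (i : ℤ)) (v ⬝ᵥ edge L.P ((i : ℤ) + 1))
          + D (v ⬝ᵥ edge L.P (-2)) (v ⬝ᵥ edge L.P (-1)) := by
      rw [hb, Finset.sum_range_succ, Finset.sum_range_succ']
      have e1 : edge L.P (((b + 1 : ℕ) : ℤ) - 1) = edge L.P (-2) := by
        rw [← edge_per L.per (-2), hb]; congr 1 <;> (push_cast; ring)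
      have e2 : edge L.P (((b + 1 : ℕ) : ℤ)) = edge L.P (-1) := by
        rw [← edge_per L.per (-1), hb]; congr 1 <;> (push_cast; ring)
      rw [e1, e2]
      have e3 : ∀ i : ℕ, (((i + 1 : ℕ) : ℤ) - 1) = i := by intro i; push_cast; ring
      simp only [e3]
      push_cast
      try rw [zero_sub]
      ring
    have sQ : ∑ i ∈ Finset.range (K.n + L.n - 2),
          D (v ⬝ᵥ edge (gP K L) ((i : ℤ) - 1)) (v ⬝ᵥ edge (gP K L) i)
        = ∑ i ∈ Finset.range a, D (v ⬝ᵥ edge K.P (i : ℤ)) (v ⬝ᵥ edge K.P ((i : ℤ) + 1))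
          + ∑ i ∈ Finset.range b, D (v ⬝ᵥ edge L.P (i : ℤ)) (v ⬝ᵥ edge L.P ((i : ℤ) + 1)) := by
      rw [show K.n + L.n - 2 = (a + 1) + (b + 1) by omega, Finset.sum_range_add,
        Finset.sum_range_succ', Finset.sum_range_succ']
      have q0 : D (v ⬝ᵥ edge (gP K L) (((0 : ℕ) : ℤ) - 1)) (v ⬝ᵥ edge (gP K L) ((0 : ℕ) : ℤ)) = 0 := by
        have e1 : edge (gP K L) (((0 : ℕ) : ℤ) - 1) = edge L.P (-2) := by
          have : edge (gP K L) (((0 : ℕ) : ℤ) - 1) = edge (gP K L) (K.n - 1 + (L.n - 2)) := by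
            unfold edge
            have e := gP_per (K := K) (L := L)
            rw [← e (((0 : ℕ) : ℤ) - 1 + 1), ← e (((0 : ℕ) : ℤ) - 1)]
            congr 2 <;> (push_cast; ring)
          rw [this, eL _ (by omega) (by omega), ← edge_per L.per (-2)]
          congr 1 <;> ring
        have e2 : edge (gP K L) ((0 : ℕ) : ℤ) = edge K.P 0 := by
          rw [Nat.cast_zero]; exact eK 0 le_rfl (by omega)
        rw [e1, e2, hsL, dotProduct_smul, smul_eq_mul]
        exact D_self' _ hs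
      have q1 : D (v ⬝ᵥ edge (gP K L) (((a + 1 + 0 : ℕ) : ℤ) - 1))
          (v ⬝ᵥ edge (gP K L) ((a + 1 + 0 : ℕ) : ℤ)) = 0 := by
        have e1 : edge (gP K L) (((a + 1 + 0 : ℕ) : ℤ) - 1) = edge K.P (-2) := by
          rw [eK _ (by push_cast; omega) (by rw [ha]; push_cast; omega), ← edge_per K.per (-2), ha]
          congr 1 <;> (push_cast; ring)
        have e2 : edge (gP K L) ((a + 1 + 0 : ℕ) : ℤ) = edge L.P 0 := by
          rw [← eL 0 le_rfl (by omega), ha]; congr 1 <;> (push_cast; ring)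
        rw [e1, e2, htL, dotProduct_smul, smul_eq_mul]
        exact D_self _ ht
      rw [q0, q1, add_zero, add_zero]
      congr 1
      · apply Finset.sum_congr rfl
        intro i hi
        have hi' := Finset.mem_range.1 hi
        rw [eK _ (by push_cast; omega) (by rw [ha]; push_cast; omega),
          eK _ (by push_cast; omega) (by rw [ha]; push_cast; omega)]
        congr 3
        push_cast; ring
      · apply Finset.sum_congr rfl
        intro i hi
        have hi' := Finset.mem_range.1 hi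
        have e1 : edge (gP K L) (((a + 1 + (i + 1) : ℕ) : ℤ) - 1) = edge L.P (i : ℤ) := by
          rw [← eL _ (by omega) (by rw [hb]; push_cast; omega), ha]; congr 1 <;> (push_cast; ring)
        have e2 : edge (gP K L) (((a + 1 + (i + 1) : ℕ) : ℤ)) = edge L.P ((i : ℤ) + 1) := by
          rw [← eL _ (by omega) (by rw [hb]; push_cast; omega), ha]; congr 1 <;> (push_cast; ring)
        rw [e1, e2]
    rw [sQ, sK, sL, eLm, hsL, htL, dotProduct_smul, dotProduct_smul, smul_eq_mul, smul_eq_mul,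
      dotProduct_neg]
    omega
  -- existence of a generic direction
  obtain ⟨v₀, hv₀⟩ := (dense_generic S hS).nonempty
  have hpos : 1 ≤ M₁ + M₂ := by
    have := gen v₀ hv₀
    have := hM₁ v₀
    have := hM₂ v₀
    omega
  intro v
  have hb := bound_of_generic (K.n + L.n - 2) (gP K L) (M₁ + M₂ - 1) S hS (by
    intro v hv
    have := gen v hv
    have := hM₁ v
    have := hM₂ v
    omega) v
  omega

end Pool.Agent.helper82.SB
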